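import Pool.Agent.H26.Upho

set_option autoImplicit false

open H26.Upho

theorem Pool.Agent.Results.MP_8cec24_co.NotMultiplicable.result :
    ∃ (P : Type) (_ : Lattice P), IsUpho P ∧ Finitary P ∧ FiniteTypeGraded P ∧ ¬ Multiplicable P :=
  ⟨E, lat, upho, finitary, graded, not_mult⟩
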